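import Pool.Agent.R200.RootMain

/-!
# MP_0ef12e_an: a primitive compatible non-degenerate random substitution whose shift has a
square root in the automorphism group
-/

namespace Pool.Agent.Results.MP_0ef12e_an.SquareRootOfShift

open Pool.Agent.R200.Root

/-- There is a primitive, compatible, non-degenerate random substitution `θ` on a finite alphabet
such that the shift has a finite root in the automorphism group of its (nonempty) subshift: there
are `n ≥ 2` and an automorphism `f` with `f^n = σ`. -/
theorem result : ∃ (A : Type) (_ : Fintype A) (_ : DecidableEq A) (_ : TopologicalSpace A)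
    (_ : DiscreteTopology A) (θ : A → Finset (List A)),
    IsRandomSubstitution θ ∧ Primitive θ ∧ Compatible θ ∧ NonDegenerate θ ∧
      (rsShift θ).Nonempty ∧
      ∃ (n : ℕ) (f : rsShift θ ≃ₜ rsShift θ), 2 ≤ n ∧
        (∀ x, f (shiftMap θ x) = shiftMap θ (f x)) ∧ ∀ x, f^[n] x = shiftMap θ x := by
  refine ⟨B2, inferInstance, inferInstance, inferInstance, inferInstance, th, th_rs,
    th_primitive, th_compatible, th_nondeg, rs_nonempty, 2, root, le_refl 2, ?_, ?_⟩
  · intro x
    rfl
  · intro x
    apply Subtype.ext
    exact hs_hs x.1

end Pool.Agent.Results.MP_0ef12e_an.SquareRootOfShift
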